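import Pool.Agent.W251.EX.Defs

/-!
Project EX, part AMV1: the logarithmic mean value theorem.
-/

set_option autoImplicit false

open Finset Filter
open Pool.Agent.W251.EX

namespace Pool.Agent.W583.EX

theorem log_step {d : ℕ} (hd : 1 ≤ d) :
    1 / ((d : ℝ) + 1) ≤ Real.log ((d : ℝ) + 1) - Real.log d := by
  have hd0 : (0 : ℝ) < d := by exact_mod_cast hd
  have h := Real.one_sub_inv_le_log_of_pos (x := ((d : ℝ) + 1) / d) (by positivity)
  rw [Real.log_div (by positivity) (by positivity)] at h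
  have h2 : 1 - (((d : ℝ) + 1) / d)⁻¹ = 1 / ((d : ℝ) + 1) := by
    rw [inv_div]
    field_simp
    ring
  linarith

theorem log_step' {d : ℕ} (hd : 1 ≤ d) :
    Real.log ((d : ℝ) + 1) - Real.log d ≤ 1 / (d : ℝ) := by
  have hd0 : (0 : ℝ) < d := by exact_mod_cast hd
  have h := Real.log_le_sub_one_of_pos (x := ((d : ℝ) + 1) / d) (by positivity)
  rw [Real.log_div (by positivity) (by positivity)] at h
  have h2 : ((d : ℝ) + 1) / d - 1 = 1 / (d : ℝ) := by
    field_simp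
    ring
  linarith

theorem abel (b : ℕ → ℂ) (k : ℕ) : ∑ d ∈ Icc 1 k, b d / (d : ℂ) =
    (∑ d ∈ Icc 1 k, b d) / ((k : ℂ) + 1) +
      ∑ d ∈ Icc 1 k, (∑ j ∈ Icc 1 d, b j) / ((d : ℂ) * ((d : ℂ) + 1)) := by
  induction k with
  | zero => simp
  | succ k ih =>
    simp only [Finset.sum_Icc_succ_top (show 1 ≤ k + 1 by omega)]
    rw [ih]
    have h1 : ((k : ℂ) + 1) ≠ 0 := Nat.cast_add_one_ne_zero k
    have h2 : ((k : ℂ) + 1 + 1) ≠ 0 := by exact_mod_cast Nat.succ_ne_zero (k + 1)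
    push_cast
    generalize ∑ d ∈ Icc 1 k, b d = S
    generalize ∑ d ∈ Icc 1 k, (∑ j ∈ Icc 1 d, b j) / ((d : ℂ) * ((d : ℂ) + 1)) = T
    field_simp
    ring

theorem sumb (ε M : ℝ) (hε : 0 ≤ ε) (k : ℕ) :
    ∑ d ∈ Icc 1 k, (ε * d + M) / ((d : ℝ) * ((d : ℝ) + 1)) ≤
      ε * Real.log ((k : ℝ) + 1) + M * (1 - 1 / ((k : ℝ) + 1)) := by
  induction k with
  | zero => simp
  | succ k ih =>
    rw [Finset.sum_Icc_succ_top (by omega)]
    have h1 : (ε * ((k + 1 : ℕ) : ℝ) + M) / (((k + 1 : ℕ) : ℝ) * (((k + 1 : ℕ) : ℝ) + 1)) =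
        ε * (1 / (((k + 1 : ℕ) : ℝ) + 1)) + M * (1 / ((k : ℝ) + 1) -
          1 / (((k + 1 : ℕ) : ℝ) + 1)) := by
      push_cast
      field_simp
      ring
    have h2 := mul_le_mul_of_nonneg_left (log_step (d := k + 1) (by omega)) hε
    rw [h1]
    push_cast at h2 ⊢
    linarith

theorem abel_bound {b : ℕ → ℂ} {ε M : ℝ} (hε : 0 ≤ ε) (hM : 0 ≤ M)
    (h : ∀ d : ℕ, 1 ≤ d → ‖∑ j ∈ Icc 1 d, b j‖ ≤ ε * d + M) (k : ℕ) (hk : 1 ≤ k) :
    ‖∑ d ∈ Icc 1 k, b d / (d : ℂ)‖ ≤ ε * Real.log k + 2 * (ε + M) := by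
  have hk0 : (1 : ℝ) ≤ k := by exact_mod_cast hk
  have hk1 : (0 : ℝ) < (k : ℝ) + 1 := by linarith
  have h1 : ‖(∑ d ∈ Icc 1 k, b d) / ((k : ℂ) + 1)‖ ≤ ε + M := by
    have h2 : ‖((k : ℂ) + 1)‖ = (k : ℝ) + 1 := by
      have : ((k : ℂ) + 1) = ((k + 1 : ℕ) : ℂ) := by push_cast; rfl
      rw [this, Complex.norm_natCast]
      push_cast
      rfl
    rw [norm_div, h2, div_le_iff₀ hk1]
    have h3 := h k hk
    nlinarith
  have h4 : ‖∑ d ∈ Icc 1 k, (∑ j ∈ Icc 1 d, b j) / ((d : ℂ) * ((d : ℂ) + 1))‖ ≤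
      ∑ d ∈ Icc 1 k, (ε * d + M) / ((d : ℝ) * ((d : ℝ) + 1)) := by
    refine norm_sum_le_of_le _ fun d hd => ?_
    have hd1 := (mem_Icc.1 hd).1
    have h2 : ‖((d : ℂ) * ((d : ℂ) + 1))‖ = (d : ℝ) * ((d : ℝ) + 1) := by
      have : ((d : ℂ) * ((d : ℂ) + 1)) = ((d * (d + 1) : ℕ) : ℂ) := by push_cast; rfl
      rw [this, Complex.norm_natCast]
      push_cast
      rfl
    rw [norm_div, h2]
    exact div_le_div_of_nonneg_right (h d hd1) (by positivity)
  have h5 := sumb ε M hε k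
  have h6 : M * (1 - 1 / ((k : ℝ) + 1)) ≤ M := by
    have : (0 : ℝ) ≤ 1 / ((k : ℝ) + 1) := by positivity
    nlinarith
  have h7 : ε * Real.log ((k : ℝ) + 1) ≤ ε * (Real.log k + 1) := by
    refine mul_le_mul_of_nonneg_left ?_ hε
    have h8 := log_step' hk
    have h9 : 1 / (k : ℝ) ≤ 1 := by
      rw [div_le_one (by linarith)]
      exact hk0
    linarith
  rw [abel]
  refine (norm_add_le _ _).trans ?_
  linarith

/-- harmonic numbers -/
theorem harm (k : ℕ) (hk : 1 ≤ k) : Real.log k ≤ ∑ d ∈ Icc 1 k, 1 / (d : ℝ) ∧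
    ∑ d ∈ Icc 1 k, 1 / (d : ℝ) ≤ 1 + Real.log k := by
  have h : ∀ k : ℕ, Real.log ((k : ℝ) + 1) ≤ ∑ d ∈ Icc 1 k, 1 / (d : ℝ) := by
    intro k
    induction k with
    | zero => simp
    | succ k ih =>
      rw [Finset.sum_Icc_succ_top (by omega)]
      have h2 := log_step' (d := k + 1) (by omega)
      push_cast at h2 ⊢
      linarith
  constructor
  · refine le_trans (Real.log_le_log (by exact_mod_cast hk) ?_) (h k)
    linarith
  · induction k, hk using Nat.le_induction with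
    | base => simp
    | succ k hk ih =>
      rw [Finset.sum_Icc_succ_top (by omega)]
      have h2 := log_step hk
      push_cast
      linarith

/-- the sums of `g d / d` -/
theorem g_bound {g : ℕ → ℂ} {κ : ℂ}
    (hg : Tendsto (fun x : ℝ => (∑ n ∈ Icc 1 ⌊x⌋₊, g n) / (x : ℂ)) atTop (nhds κ)) {ε : ℝ}
    (hε : 0 < ε) : ∃ M : ℝ, 0 ≤ M ∧ ∀ n e : ℕ, 1 ≤ e → e ≤ n →
      ‖∑ d ∈ Icc 1 (n / e), g d / (d : ℂ) - κ * ((Real.log n - Real.log e : ℝ) : ℂ)‖ ≤
        ε * Real.log n + M := by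
  have h1 : Tendsto (fun k : ℕ => (∑ n ∈ Icc 1 k, g n) / (k : ℂ)) atTop (nhds κ) := by
    have h2 := hg.comp tendsto_natCast_atTop_atTop
    refine h2.congr fun k => ?_
    simp
  obtain ⟨k0, hk0⟩ := Metric.tendsto_atTop.1 h1 ε hε
  set M0 : ℝ := ∑ j ∈ Icc 1 k0, ‖g j - κ‖ with hM0
  have hM0n : 0 ≤ M0 := sum_nonneg fun _ _ => norm_nonneg _
  have h3 : ∀ d : ℕ, 1 ≤ d → ‖∑ j ∈ Icc 1 d, (g j - κ)‖ ≤ ε * d + M0 := by
    intro d hd
    have hd0 : (0 : ℝ) < d := by exact_mod_cast hd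
    rcases le_or_gt k0 d with hdk | hdk
    · have h4 := (hk0 d hdk).le
      rw [dist_eq_norm] at h4
      have h5 : ∑ j ∈ Icc 1 d, (g j - κ) = ((∑ n ∈ Icc 1 d, g n) / (d : ℂ) - κ) * d := by
        rw [sum_sub_distrib, sum_const, Nat.card_Icc, Nat.add_sub_cancel, nsmul_eq_mul]
        have : (d : ℂ) ≠ 0 := by exact_mod_cast hd0.ne'
        field_simp
      rw [h5, norm_mul, Complex.norm_natCast]
      have := mul_le_mul_of_nonneg_right h4 hd0.le
      linarith
    · have h4 : ‖∑ j ∈ Icc 1 d, (g j - κ)‖ ≤ M0 := by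
        refine (norm_sum_le _ _).trans ?_
        rw [hM0]
        exact sum_le_sum_of_subset_of_nonneg (Icc_subset_Icc_right hdk.le)
          fun _ _ _ => norm_nonneg _
      have : 0 ≤ ε * d := by positivity
      linarith
  refine ⟨2 * (ε + M0) + 2 * ‖κ‖, by positivity, fun n e he hen => ?_⟩
  set k := n / e with hk
  have hk1 : 1 ≤ k := (Nat.one_le_div_iff he).2 hen
  have he0 : (0 : ℝ) < e := by exact_mod_cast he
  have hn0 : (0 : ℝ) < n := by exact_mod_cast (by omega : 0 < n)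
  have hkr : (1 : ℝ) ≤ k := by exact_mod_cast hk1
  have h4 := abel_bound hε.le hM0n h3 k hk1
  obtain ⟨h5, h6⟩ := harm k hk1
  -- the quotient
  have h7 : (k : ℝ) ≤ n / e := by
    rw [le_div_iff₀ he0]
    exact_mod_cast Nat.div_mul_le_self n e
  have h8 : (n : ℝ) / e < 2 * k := by
    rw [div_lt_iff₀ he0]
    have h9 : n < (k + 1) * e := by
      rw [hk]
      exact (Nat.div_lt_iff_lt_mul he).1 (Nat.lt_succ_self _)
    have h10 : (k + 1) * e ≤ 2 * k * e := Nat.mul_le_mul_right _ (by omega)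
    exact_mod_cast lt_of_lt_of_le h9 h10
  have h9 : Real.log k ≤ Real.log n - Real.log e := by
    rw [← Real.log_div hn0.ne' he0.ne']
    exact Real.log_le_log (by linarith) h7
  have h10 : Real.log n - Real.log e ≤ Real.log k + 1 := by
    rw [← Real.log_div hn0.ne' he0.ne']
    have h11 : Real.log ((n : ℝ) / e) ≤ Real.log (2 * k) :=
      Real.log_le_log (by positivity) h8.le
    rw [Real.log_mul (by norm_num) (by positivity)] at h11
    have := Real.log_two_lt_d9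
    linarith
  have h11 : ‖κ * ((∑ d ∈ Icc 1 k, 1 / (d : ℝ) : ℝ) : ℂ) -
      κ * ((Real.log n - Real.log e : ℝ) : ℂ)‖ ≤ ‖κ‖ * 2 := by
    rw [← mul_sub, norm_mul, ← Complex.ofReal_sub, Complex.norm_real]
    refine mul_le_mul_of_nonneg_left ?_ (norm_nonneg _)
    rw [Real.norm_eq_abs, abs_le]
    constructor <;> linarith
  have h12 : ∑ d ∈ Icc 1 k, g d / (d : ℂ) = ∑ d ∈ Icc 1 k, (g d - κ) / (d : ℂ) +
      κ * ((∑ d ∈ Icc 1 k, 1 / (d : ℝ) : ℝ) : ℂ) := by
    push_cast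
    rw [mul_sum, ← sum_add_distrib]
    refine sum_congr rfl fun d _ => ?_
    ring
  have h13 : Real.log k ≤ Real.log n := by
    have := Real.log_nonneg (show (1 : ℝ) ≤ e by exact_mod_cast he)
    linarith
  have h14 := mul_le_mul_of_nonneg_left h13 hε.le
  rw [h12, add_sub_assoc]
  refine (norm_add_le _ _).trans ?_
  linarith

/-- the double sum -/
theorem conv {f g : ℕ → ℂ}
    (ld : ∀ n : ℕ, 1 ≤ n → f n * (Real.log n : ℂ) = ∑ d ∈ n.divisors, g d * f (n / d)) (n : ℕ) :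
    ∑ m ∈ Icc 1 n, f m / (m : ℂ) * (Real.log m : ℂ) =
      ∑ e ∈ Icc 1 n, f e / (e : ℂ) * ∑ d ∈ Icc 1 (n / e), g d / (d : ℂ) := by
  let A : ArithmeticFunction ℂ := ⟨fun n => if n = 0 then 0 else f n / (n : ℂ), by simp⟩
  let B : ArithmeticFunction ℂ := ⟨fun n => if n = 0 then 0 else g n / (n : ℂ), by simp⟩
  have hA : ∀ n : ℕ, 1 ≤ n → A n = f n / (n : ℂ) := fun n hn => if_neg (by omega)
  have hB : ∀ n : ℕ, 1 ≤ n → B n = g n / (n : ℂ) := fun n hn => if_neg (by omega)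
  have h1 := ArithmeticFunction.sum_Ioc_mul_eq_sum_sum A B n
  have hI : ∀ k : ℕ, Ioc 0 k = Icc 1 k := fun k => by
    ext x
    simp only [mem_Ioc, mem_Icc]
    omega
  rw [hI] at h1
  have h2 : ∑ m ∈ Icc 1 n, (A * B) m = ∑ m ∈ Icc 1 n, f m / (m : ℂ) * (Real.log m : ℂ) := by
    refine sum_congr rfl fun m hm => ?_
    have hm1 := (mem_Icc.1 hm).1
    have hm0 : (m : ℂ) ≠ 0 := by exact_mod_cast (by omega : m ≠ 0)
    rw [ArithmeticFunction.mul_apply, div_mul_eq_mul_div, ld m hm1, eq_div_iff hm0, sum_mul,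
      ← Nat.sum_div_divisors m (fun d => g d * f (m / d)),
      Nat.sum_divisorsAntidiagonal (f := fun a b => A a * B b * (m : ℂ))]
    refine sum_congr rfl fun d hd => ?_
    have hd1 := Nat.pos_of_mem_divisors hd
    obtain ⟨c, hc⟩ := Nat.dvd_of_mem_divisors hd
    have hc1 : 0 < c := by
      rcases Nat.eq_zero_or_pos c with h | h
      · rw [h, mul_zero] at hc
        omega
      · exact h
    have e1 : m / d = c := by
      rw [hc]
      exact Nat.mul_div_cancel_left c hd1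
    have e2 : m / c = d := by
      rw [hc]
      exact Nat.mul_div_cancel d hc1
    rw [e1, e2, hA d hd1, hB c hc1, hc]
    have hd0 : (d : ℂ) ≠ 0 := by exact_mod_cast hd1.ne'
    have hc0 : (c : ℂ) ≠ 0 := by exact_mod_cast hc1.ne'
    push_cast
    field_simp
  rw [← h2, h1]
  refine sum_congr rfl fun e he => ?_
  rw [hA e (mem_Icc.1 he).1, hI]
  congr 1
  refine sum_congr rfl fun d hd => ?_
  rw [hB d (mem_Icc.1 hd).1]

/-- the norm of `1 + z x` -/
theorem norm_one_add (z : ℂ) {x : ℝ} (hx : 0 ≤ x) :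
    ‖1 + z * (x : ℂ)‖ ≤ 1 + z.re * x + ‖z‖ ^ 2 / 2 * x ^ 2 := by
  have h0 : 0 ≤ 1 + z.re * x + ‖z‖ ^ 2 / 2 * x ^ 2 := by
    have h1 : -‖z‖ ≤ z.re := (abs_le.1 (Complex.abs_re_le_norm z)).1
    have h2 := mul_le_mul_of_nonneg_right h1 hx
    nlinarith [sq_nonneg (‖z‖ * x - 1)]
  have h1 : ‖1 + z * (x : ℂ)‖ ^ 2 = (1 + z.re * x) ^ 2 + (z.im * x) ^ 2 := by
    rw [← Complex.normSq_eq_norm_sq, Complex.normSq_apply]
    simp
    ring
  have h2 : ‖z‖ ^ 2 = z.re ^ 2 + z.im ^ 2 := by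
    rw [← Complex.normSq_eq_norm_sq, Complex.normSq_apply]
    ring
  refine (pow_le_pow_iff_left₀ (norm_nonneg _) h0 two_ne_zero).1 ?_
  rw [h1, h2]
  nlinarith [sq_nonneg (z.re * x + (z.re ^ 2 + z.im ^ 2) / 2 * x ^ 2)]

theorem pw {u x η : ℝ} (hu : 0 < u) (hx : 0 ≤ x) (hη : 0 ≤ η) :
    (1 - η * x) * u ^ (-η) ≤ (u * (1 + x)) ^ (-η) := by
  have h1 : (0 : ℝ) < 1 + x := by linarith
  rw [Real.mul_rpow hu.le h1.le, mul_comm (u ^ (-η))]
  refine mul_le_mul_of_nonneg_right ?_ (Real.rpow_nonneg hu.le _)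
  rw [Real.rpow_def_of_pos h1]
  have h2 : Real.log (1 + x) ≤ x := by
    have := Real.log_le_sub_one_of_pos h1
    linarith
  have h3 : -(η * x) ≤ Real.log (1 + x) * -η := by nlinarith
  have h4 := Real.add_one_le_exp (-(η * x))
  have h5 := Real.exp_le_exp.2 h3
  linarith

theorem ode {u δ : ℕ → ℝ} {I L E : ℕ → ℂ} {κ : ℂ} (hκ : κ.re < 1)
    (hu : Tendsto u atTop atTop) (hδ : ∀ n, 1 ≤ n → u (n + 1) = u n + δ n)
    (hδ0 : ∀ n, 1 ≤ n → 0 ≤ δ n) (hδ1 : ∀ n, 1 ≤ n → δ n ≤ 1)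
    (hI : ∀ n, 1 ≤ n → I (n + 1) = I n + (δ n : ℂ) * L n)
    (hL : ∀ n, 1 ≤ n → L n * (u n : ℂ) = (1 + κ) * I n + E n)
    (hE : ∀ ε : ℝ, 0 < ε → ∀ᶠ n in atTop, ‖E n‖ ≤ ε * (u n) ^ 2) :
    Tendsto (fun n => L n / (u n : ℂ)) atTop (nhds 0) := by
  set z : ℂ := 1 + κ with hz
  set ρ := z.re with hρ
  have hρ2 : ρ < 2 := by
    rw [hρ, hz, Complex.add_re, Complex.one_re]
    linarith
  set η := (2 - ρ) / 2 with hη
  have hη0 : 0 < η := by rw [hη]; linarith
  set c := ‖z‖ ^ 2 / 2 with hc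
  have hc0 : 0 ≤ c := by positivity
  have key : ∀ ε : ℝ, 0 < ε → ∀ᶠ n in atTop, ‖I n‖ ≤ ε * (u n) ^ 2 := by
    intro ε hε
    obtain ⟨n0, hn0⟩ := eventually_atTop.1 ((eventually_ge_atTop 1).and
      ((hE (ε * η / 2) (by positivity)).and (hu.eventually_ge_atTop (1 + (c + 3 * η) / η + η))))
    have hn1 : ∀ n, n0 ≤ n → 1 ≤ n := fun n hn => (hn0 n hn).1
    have hE0 : ∀ n, n0 ≤ n → ‖E n‖ ≤ ε * η / 2 * (u n) ^ 2 := fun n hn => (hn0 n hn).2.1
    have hq : 0 ≤ (c + 3 * η) / η := by positivity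
    have hu1 : ∀ n, n0 ≤ n → 1 ≤ u n ∧ (c + 3 * η) / η ≤ u n ∧ η ≤ u n := by
      intro n hn
      have := (hn0 n hn).2.2
      refine ⟨?_, ?_, ?_⟩ <;> linarith
    set K := ‖I n0‖ / (u n0) ^ 2 * (u n0) ^ η with hK
    have hK0 : 0 ≤ K := by
      have := (hu1 n0 le_rfl).1
      positivity
    have hind : ∀ n, n0 ≤ n → ‖I n‖ ≤ (u n) ^ 2 * (ε / 2 + K * (u n) ^ (-η)) := by
      intro n hn
      induction n, hn using Nat.le_induction with
      | base =>
        have h1 := (hu1 n0 le_rfl).1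
        have h2 : K * (u n0) ^ (-η) = ‖I n0‖ / (u n0) ^ 2 := by
          rw [hK, mul_assoc, ← Real.rpow_add (by linarith), add_neg_cancel, Real.rpow_zero,
            mul_one]
        rw [h2, mul_add, mul_div_cancel₀ _ (by positivity)]
        have : 0 ≤ (u n0) ^ 2 * (ε / 2) := by positivity
        linarith
      | succ n hn ih =>
        obtain ⟨h1, h2, h3⟩ := hu1 n hn
        have hn1' := hn1 n hn
        have hun : 0 < u n := by linarith
        have hd0 := hδ0 n hn1'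
        have hd1 := hδ1 n hn1'
        set x := δ n / u n with hx
        have hx0 : 0 ≤ x := div_nonneg hd0 hun.le
        have hxu : x * u n = δ n := div_mul_cancel₀ _ hun.ne'
        have hu' : u (n + 1) = u n * (1 + x) := by
          rw [hδ n hn1', ← hxu]
          ring
        have hx1 : x * ((c + 3 * η) / η) ≤ 1 := by
          calc x * ((c + 3 * η) / η) ≤ x * u n := mul_le_mul_of_nonneg_left h2 hx0
            _ ≤ 1 := by rw [hxu]; exact hd1
        have hx2 : x * (c + 3 * η) ≤ η := by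
          have h4 := mul_le_mul_of_nonneg_right hx1 hη0.le
          rw [one_mul, mul_assoc, div_mul_cancel₀ _ hη0.ne'] at h4
          exact h4
        have hx3 : x ≤ 1 := by
          have h4 : x * (3 * η) ≤ η := by nlinarith
          have h5 : (3 * x) * η ≤ 1 * η := by linarith
          have h6 := le_of_mul_le_mul_right h5 hη0
          linarith
        have hx4 : η * x ≤ 1 := by
          calc η * x ≤ u n * x := mul_le_mul_of_nonneg_right h3 hx0
            _ = δ n := by rw [mul_comm, hxu]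
            _ ≤ 1 := hd1
        have hrec : I (n + 1) = (1 + z * (x : ℂ)) * I n + (x : ℂ) * E n := by
          have h4 := hL n hn1'
          have h5 : ((δ n : ℝ) : ℂ) = (x : ℂ) * (u n : ℂ) := by
            rw [← Complex.ofReal_mul, hxu]
          rw [hI n hn1', h5]
          linear_combination (x : ℂ) * h4
        have h4 : ‖I (n + 1)‖ ≤ (1 + ρ * x + c * x ^ 2) * ‖I n‖ + x * (ε * η / 2 * (u n) ^ 2) := by
          rw [hrec]
          refine (norm_add_le _ _).trans ?_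
          rw [norm_mul, norm_mul, Complex.norm_real, Real.norm_of_nonneg hx0]
          exact add_le_add (mul_le_mul_of_nonneg_right (norm_one_add z hx0) (norm_nonneg _))
            (mul_le_mul_of_nonneg_left (hE0 n hn) hx0)
        have h5 : 1 + ρ * x + c * x ^ 2 ≤ (1 + x) ^ 2 * (1 - η * x) := by
          have e1 : (1 + x) ^ 2 * (1 - η * x) - (1 + ρ * x + c * x ^ 2) =
              x * (η - x * (c + 3 * η)) + x ^ 2 * (1 + η * (1 - x)) := by
            have : ρ = 2 - 2 * η := by rw [hη]; ring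
            rw [this]
            ring
          have e2 : 0 ≤ x * (η - x * (c + 3 * η)) := mul_nonneg hx0 (by linarith)
          have e3 : 0 ≤ x ^ 2 * (1 + η * (1 - x)) :=
            mul_nonneg (sq_nonneg _) (by nlinarith)
          linarith
        have h6 := pw hun hx0 hη0.le
        rw [← hu'] at h6
        have h7 : (1 + ρ * x + c * x ^ 2) * ‖I n‖ ≤
            (1 + x) ^ 2 * (1 - η * x) * ((u n) ^ 2 * (ε / 2 + K * (u n) ^ (-η))) := by
          refine mul_le_mul h5 ih (norm_nonneg _) ?_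
          exact mul_nonneg (sq_nonneg _) (by linarith)
        have h8 : x * (ε * η / 2 * (u n) ^ 2) ≤ (1 + x) ^ 2 * (x * (ε * η / 2 * (u n) ^ 2)) := by
          have h9 : 0 ≤ x * (ε * η / 2 * (u n) ^ 2) := by positivity
          have h10 : 1 ≤ (1 + x) ^ 2 := by nlinarith
          nlinarith
        have h9 : (u (n + 1)) ^ 2 * (K * ((1 - η * x) * (u n) ^ (-η))) ≤
            (u (n + 1)) ^ 2 * (K * (u (n + 1)) ^ (-η)) :=
          mul_le_mul_of_nonneg_left (mul_le_mul_of_nonneg_left h6 hK0) (sq_nonneg _)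
        have h10 : (1 + x) ^ 2 * (1 - η * x) * ((u n) ^ 2 * (ε / 2 + K * (u n) ^ (-η))) +
            (1 + x) ^ 2 * (x * (ε * η / 2 * (u n) ^ 2)) =
            (u (n + 1)) ^ 2 * (ε / 2) +
              (u (n + 1)) ^ 2 * (K * ((1 - η * x) * (u n) ^ (-η))) := by
          rw [hu']
          ring
        rw [mul_add]
        linarith
    have hlim : Tendsto (fun n => K * (u n) ^ (-η)) atTop (nhds 0) := by
      have h1 := (tendsto_rpow_neg_atTop hη0).comp hu
      have h2 := h1.const_mul K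
      rw [mul_zero] at h2
      exact h2
    filter_upwards [eventually_ge_atTop n0, hlim.eventually_le_const (half_pos hε)] with n hn h1
    refine (hind n hn).trans ?_
    have h2 : 0 ≤ (u n) ^ 2 := sq_nonneg _
    nlinarith
  rw [Metric.tendsto_atTop']
  intro ε hε
  have hpos : 0 < ε / (2 * (‖z‖ + 2)) := by positivity
  obtain ⟨N, hN⟩ := eventually_atTop.1 (((eventually_ge_atTop 1).and (key _ hpos)).and
    ((hE _ hpos).and (hu.eventually_ge_atTop 1)))
  refine ⟨N, fun n hn => ?_⟩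
  obtain ⟨⟨h1, h2⟩, h3, h4⟩ := hN n hn.le
  have hun : 0 < u n := by linarith
  rw [dist_zero_right, norm_div, Complex.norm_real, Real.norm_of_nonneg hun.le, div_lt_iff₀ hun]
  have h5 : ‖L n‖ * u n ≤ ‖z‖ * ‖I n‖ + ‖E n‖ := by
    have h6 : ‖L n * (u n : ℂ)‖ = ‖L n‖ * u n := by
      rw [norm_mul, Complex.norm_real, Real.norm_of_nonneg hun.le]
    rw [← h6, hL n h1]
    refine (norm_add_le _ _).trans ?_
    rw [norm_mul]
  have h6 : ‖z‖ * ‖I n‖ ≤ ‖z‖ * (ε / (2 * (‖z‖ + 2)) * (u n) ^ 2) :=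
    mul_le_mul_of_nonneg_left h2 (norm_nonneg _)
  have h7 : ‖L n‖ * u n < ε * u n * u n := by
    have h8 : ‖z‖ * (ε / (2 * (‖z‖ + 2)) * (u n) ^ 2) + ε / (2 * (‖z‖ + 2)) * (u n) ^ 2 =
        (‖z‖ + 1) / (2 * (‖z‖ + 2)) * (ε * (u n) ^ 2) := by ring
    have h9 : (‖z‖ + 1) / (2 * (‖z‖ + 2)) < 1 := by
      have := norm_nonneg z
      rw [div_lt_one (by positivity)]
      linarith
    have h10 : 0 < ε * (u n) ^ 2 := by positivity
    have h11 := mul_lt_mul_of_pos_right h9 h10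
    nlinarith
  exact lt_of_mul_lt_mul_right h7 hun.le

/-- AMV1 -/
theorem amv1 : S_AMV1 := by
  intro f g r C κ h
  set u : ℕ → ℝ := fun n => Real.log n with hu
  set δ : ℕ → ℝ := fun n => Real.log (n + 1) - Real.log n with hδ
  set I : ℕ → ℂ := fun n => ∑ m ∈ Icc 1 n, f m / (m : ℂ) * ((Real.log n - Real.log m : ℝ) : ℂ)
    with hI
  set L : ℕ → ℂ := fun n => ∑ m ∈ Icc 1 n, f m / (m : ℂ) with hL
  set E : ℕ → ℂ := fun n => L n * (u n : ℂ) - (1 + κ) * I n with hE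
  have hr0 : ∀ n, 0 ≤ r n := fun n => (norm_nonneg _).trans (h.fr n)
  have hC0 : 0 ≤ C := by
    have h1 := h.rs 1
    rw [Icc_self, sum_singleton, Nat.cast_one, mul_one] at h1
    exact (hr0 1).trans h1
  have hut : Tendsto u atTop atTop := Real.tendsto_log_atTop.comp tendsto_natCast_atTop_atTop
  -- the sums of `r n / n`
  have hrs : ∀ n : ℕ, 1 ≤ n → ∑ e ∈ Icc 1 n, ‖f e / (e : ℂ)‖ ≤ C * Real.log n + 2 * C := by
    intro n hn
    have h1 := abel_bound (b := fun d => (r d : ℂ)) hC0 le_rfl (fun d hd => by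
      rw [← Complex.ofReal_sum, Complex.norm_real, Real.norm_of_nonneg
        (sum_nonneg fun _ _ => hr0 _), add_zero]
      exact h.rs d) n hn
    have h2 : ∑ d ∈ Icc 1 n, ((r d : ℝ) : ℂ) / (d : ℂ) =
        ((∑ d ∈ Icc 1 n, r d / (d : ℝ) : ℝ) : ℂ) := by
      push_cast
      rfl
    rw [h2, Complex.norm_real, Real.norm_of_nonneg
      (sum_nonneg fun d _ => div_nonneg (hr0 d) (Nat.cast_nonneg d)), add_zero] at h1
    refine le_trans (sum_le_sum fun e he => ?_) h1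
    rw [norm_div, Complex.norm_natCast]
    exact div_le_div_of_nonneg_right (h.fr e) (Nat.cast_nonneg e)
  have hEq : ∀ n, E n = ∑ e ∈ Icc 1 n, f e / (e : ℂ) * (∑ d ∈ Icc 1 (n / e), g d / (d : ℂ) -
      κ * ((Real.log n - Real.log e : ℝ) : ℂ)) := by
    intro n
    have h1 := conv h.ld n
    have h2 : L n * (u n : ℂ) = I n + ∑ m ∈ Icc 1 n, f m / (m : ℂ) * (Real.log m : ℂ) := by
      simp only [hL, hI, hu]
      rw [sum_mul, ← sum_add_distrib]
      refine sum_congr rfl fun m _ => ?_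
      push_cast
      ring
    simp only [hE]
    rw [h2, h1]
    simp only [hI, mul_sub, sum_sub_distrib]
    have h3 : ∑ e ∈ Icc 1 n, f e / (e : ℂ) * (κ * ((Real.log n - Real.log e : ℝ) : ℂ)) =
        κ * ∑ m ∈ Icc 1 n, f m / (m : ℂ) * ((Real.log n - Real.log m : ℝ) : ℂ) := by
      rw [mul_sum]
      refine sum_congr rfl fun m _ => ?_
      ring
    rw [h3]
    ring
  have hEb : ∀ ε : ℝ, 0 < ε → ∀ᶠ n in atTop, ‖E n‖ ≤ ε * (u n) ^ 2 := by
    intro ε hε
    obtain ⟨M, hM, hb⟩ := g_bound h.lim (show 0 < ε / (3 * (C + 1)) by positivity)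
    have h1 : Tendsto (fun n => u n) atTop atTop := hut
    filter_upwards [eventually_ge_atTop 1, hut.eventually_ge_atTop 2,
      hut.eventually_ge_atTop (M * (3 * (C + 1)) / ε * 2)] with n hn1 hn2 hn3
    have h2 : ‖E n‖ ≤ (ε / (3 * (C + 1)) * u n + M) * (C * u n + 2 * C) := by
      rw [hEq]
      have h3 : ∀ e ∈ Icc 1 n, ‖f e / (e : ℂ) * (∑ d ∈ Icc 1 (n / e), g d / (d : ℂ) -
          κ * ((Real.log n - Real.log e : ℝ) : ℂ))‖ ≤
          ‖f e / (e : ℂ)‖ * (ε / (3 * (C + 1)) * u n + M) := by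
        intro e he
        rw [norm_mul]
        exact mul_le_mul_of_nonneg_left (hb n e (mem_Icc.1 he).1 (mem_Icc.1 he).2)
          (norm_nonneg _)
      refine (norm_sum_le_of_le _ h3).trans ?_
      rw [← sum_mul, mul_comm]
      refine mul_le_mul_of_nonneg_left (hrs n hn1) ?_
      have : 0 ≤ u n := by linarith
      positivity
    have hq : 0 < ε / (3 * (C + 1)) := by positivity
    have h4 : M ≤ ε / (3 * (C + 1)) * u n / 2 := by
      have h5 := mul_le_mul_of_nonneg_left hn3 hq.le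
      have h6 : ε / (3 * (C + 1)) * (M * (3 * (C + 1)) / ε * 2) = M * 2 := by
        field_simp
      rw [h6] at h5
      linarith
    have h5 : C * u n + 2 * C ≤ 2 * (C + 1) * u n := by nlinarith
    have h6 : ε / (3 * (C + 1)) * u n + M ≤ 3 / 2 * (ε / (3 * (C + 1)) * u n) := by linarith
    have hun : 0 ≤ u n := by linarith
    calc ‖E n‖ ≤ (ε / (3 * (C + 1)) * u n + M) * (C * u n + 2 * C) := h2
      _ ≤ 3 / 2 * (ε / (3 * (C + 1)) * u n) * (2 * (C + 1) * u n) :=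
        mul_le_mul h6 h5 (by positivity) (by positivity)
      _ = ε * (u n) ^ 2 := by
        field_simp
  have hmain := ode (u := u) (δ := δ) (I := I) (L := L) (E := E) h.re hut
    (fun n _ => by simp only [hu, hδ]; push_cast; ring)
    (fun n hn => by
      have h1 := log_step hn
      have h2 : (0 : ℝ) ≤ 1 / ((n : ℝ) + 1) := by positivity
      simp only [hδ]
      linarith)
    (fun n hn => by
      have h1 := log_step' hn
      have h2 : 1 / (n : ℝ) ≤ 1 := by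
        rw [div_le_one (by exact_mod_cast hn)]
        exact_mod_cast hn
      simp only [hδ]
      linarith)
    (fun n hn => by
      simp only [hI, hL, hδ]
      rw [Finset.sum_Icc_succ_top (by omega), mul_sum, sub_self, Complex.ofReal_zero, mul_zero,
        add_zero, ← sum_add_distrib]
      refine sum_congr rfl fun m _ => ?_
      push_cast
      ring)
    (fun n _ => by simp only [hE]; ring) hEb
  -- real arguments
  have h1 : Tendsto (fun x : ℝ => ‖L ⌊x⌋₊ / (u ⌊x⌋₊ : ℂ)‖) atTop (nhds 0) := by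
    have h2 := (hmain.comp (tendsto_nat_floor_atTop (α := ℝ))).norm
    rw [norm_zero] at h2
    exact h2
  refine squeeze_zero_norm' ?_ h1
  filter_upwards [eventually_ge_atTop 2] with x hx
  have hfl : 2 ≤ ⌊x⌋₊ := Nat.le_floor (by exact_mod_cast hx)
  have h3 : (2 : ℝ) ≤ (⌊x⌋₊ : ℝ) := by exact_mod_cast hfl
  have h4 : (⌊x⌋₊ : ℝ) ≤ x := Nat.floor_le (by linarith)
  have h5 : 0 < Real.log (⌊x⌋₊ : ℝ) := Real.log_pos (by linarith)
  have h6 : Real.log (⌊x⌋₊ : ℝ) ≤ Real.log x := Real.log_le_log (by linarith) h4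
  have h7 : 0 < Real.log x := by linarith
  rw [norm_div, norm_div, Complex.norm_real, Complex.norm_real, Real.norm_of_nonneg h7.le,
    Real.norm_of_nonneg h5.le]
  exact div_le_div_of_nonneg_left (norm_nonneg _) h5 h6

end Pool.Agent.W583.EX
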